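import Pool.Agent.Y527.ZA.Thy
set_option autoImplicit false

/-!
# The theory of the ring of abelian algebraic integers

`Qab` is the subfield of `ℂ` generated by all roots of unity and `Zab` is its ring of integers. The
first-order theory of the ring `Zab` is not decidable. More precisely every arithmetical set of
natural numbers is many-one reducible to it, so that it is not arithmetical, and the sets of natural
numbers which are definable in the ring `Zab`, with or without parameters, are exactly the
arithmetical sets.
-/

namespace Pool.Agent.Results.MP_5e144c_lc.AbelianIntegers

open FirstOrder FirstOrder.Language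
open Pool.Agent.H358R3 Pool.Agent.Y527.ZA Pool.Agent.Y669.TA

attribute [local instance] Df.strO

theorem result :
    -- every arithmetical set is many-one reducible to the theory of `ℤ^ab`
    (∀ A : ℕ → Prop, Arithmetical A → A ≤₀ Theory Zab) ∧
    -- the theory of `ℤ^ab` is not arithmetical
    ¬ Arithmetical (Theory Zab) ∧
    -- in particular it is not decidable
    ¬ ComputablePred (Theory Zab) ∧
    -- the definable sets of natural numbers are the arithmetical sets
    ∀ A : Set ℕ,
      (Set.Definable₁ (∅ : Set Zab) Language.ring {x : Zab | ∃ a ∈ A, x = (a : Zab)} ↔ Arith A) ∧
      (Set.Definable₁ (Set.univ : Set Zab) Language.ring {x : Zab | ∃ a ∈ A, x = (a : Zab)} ↔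
        Arith A) :=
  ⟨fun _ hA => reducible hA, not_arith, fun h => not_arith (.comp _ h), nat_def_iff⟩

end Pool.Agent.Results.MP_5e144c_lc.AbelianIntegers
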